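import Pool.Agent.Helper98.NS.Gap

/-!
# Components of an integer and their divisor sums
-/

set_option autoImplicit false

namespace Pool.Agent.Helper98.NS

open ArithmeticFunction Finset

/-- the component of `n` at `p` -/
def cc (n p : ℕ) : ℕ := p ^ n.factorization p

/-- its divisor sum -/
def rr (n p : ℕ) : ℕ := sigma 1 (cc n p)

variable {n p : ℕ}

theorem cc_pos (hp : p ∈ n.primeFactors) : 0 < cc n p :=
  pow_pos (Nat.prime_of_mem_primeFactors hp).pos _

theorem le_cc (hp : p ∈ n.primeFactors) : p ≤ cc n p := by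
  have hpp := Nat.prime_of_mem_primeFactors hp
  have hn : n ≠ 0 := (Nat.mem_primeFactors.mp hp).2.2
  have h1 : 1 ≤ n.factorization p :=
    hpp.factorization_pos_of_dvd hn (Nat.dvd_of_mem_primeFactors hp)
  calc p = p ^ 1 := (pow_one p).symm
    _ ≤ cc n p := Nat.pow_le_pow_right hpp.pos h1

theorem prod_cc (hn : n ≠ 0) : ∏ p ∈ n.primeFactors, cc n p = n :=
  Nat.prod_factorization_pow_eq_self hn

theorem cc_cop {S : Finset ℕ} (hS : S ⊆ n.primeFactors) :
    (S : Set ℕ).Pairwise (Function.onFun Nat.Coprime (cc n)) := by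
  intro a ha b hb hab
  exact Nat.coprime_pow_primes _ _ (Nat.prime_of_mem_primeFactors (hS ha))
    (Nat.prime_of_mem_primeFactors (hS hb)) hab

theorem sig_prod {S : Finset ℕ} (hS : S ⊆ n.primeFactors) :
    sigma 1 (∏ p ∈ S, cc n p) = ∏ p ∈ S, rr n p :=
  isMultiplicative_sigma.map_prod (cc n) S (cc_cop hS)

theorem rr_formula (hp : p ∈ n.primeFactors) : ((p : ℝ) - 1) * rr n p = p * cc n p - 1 := by
  have hpp := Nat.prime_of_mem_primeFactors hp
  unfold rr cc
  rw [sigma_one_apply_prime_pow hpp]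
  push_cast
  rw [mul_comm, geom_sum_mul]
  ring

theorem one_lt_cast (hp : p ∈ n.primeFactors) : (1 : ℝ) < p := by
  exact_mod_cast (Nat.prime_of_mem_primeFactors hp).one_lt

theorem cc_lt_rr (hp : p ∈ n.primeFactors) : (cc n p : ℝ) < rr n p := by
  have h1 := rr_formula hp
  have h2 := one_lt_cast hp
  have h3 : (p : ℝ) ≤ cc n p := by exact_mod_cast le_cc hp
  by_contra hc
  push Not at hc
  have h4 : ((p : ℝ) - 1) * rr n p ≤ ((p : ℝ) - 1) * cc n p :=
    mul_le_mul_of_nonneg_left hc (by linarith)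
  nlinarith

theorem rr_le (hp : p ∈ n.primeFactors) : (rr n p : ℝ) ≤ cc n p * (p / (p - 1)) := by
  have h1 := rr_formula hp
  have h2 := one_lt_cast hp
  have h3 : (0 : ℝ) < (p : ℝ) - 1 := by linarith
  rw [mul_div_assoc', le_div_iff₀ h3]
  linarith

theorem le_rr (hp : p ∈ n.primeFactors) {t : ℝ} (ht : 0 < t) (htc : t ≤ cc n p) :
    (cc n p : ℝ) * ((1 - 1 / t) * (p / (p - 1))) ≤ rr n p := by
  have h1 := rr_formula hp
  have h2 := one_lt_cast hp
  have h3 : (0 : ℝ) < (p : ℝ) - 1 := by linarith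
  have h4 : (cc n p : ℝ) * ((1 - 1 / t) * (p / (p - 1))) = (cc n p * (1 - 1 / t) * p) / (p - 1) := by
    ring
  rw [h4, div_le_iff₀ h3]
  have h5 : 1 ≤ (cc n p : ℝ) * (1 / t) := by
    rw [mul_one_div, le_div_iff₀ ht]
    linarith
  have h6 : (rr n p : ℝ) * (p - 1) = p * cc n p - 1 := by linarith
  rw [h6]
  nlinarith

/-- `σ(N) ≤ N (1 + 1/t) ^ k` if `N` has at most `k` prime factors, all greater than `t` -/
theorem sigma_le (N k : ℕ) {t : ℝ} (hN : N ≠ 0) (ht : 0 < t) (hk : N.primeFactors.card ≤ k)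
    (hq : ∀ q ∈ N.primeFactors, t + 1 ≤ (q : ℝ)) :
    ((sigma 1 N : ℕ) : ℝ) ≤ N * (1 + 1 / t) ^ k := by
  have h1 : sigma 1 N = ∏ q ∈ N.primeFactors, rr N q := by
    have := sig_prod (n := N) (S := N.primeFactors) (Subset.refl _)
    rwa [prod_cc hN] at this
  have h2 : (N : ℝ) = ∏ q ∈ N.primeFactors, (cc N q : ℝ) := by
    have := prod_cc hN
    exact_mod_cast this.symm
  rw [h1]
  push_cast
  calc ∏ q ∈ N.primeFactors, (rr N q : ℝ)
      ≤ ∏ q ∈ N.primeFactors, ((cc N q : ℝ) * (1 + 1 / t)) := by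
        apply Finset.prod_le_prod (fun q _ => Nat.cast_nonneg _)
        intro q hq'
        refine (rr_le hq').trans (mul_le_mul_of_nonneg_left ?_ (Nat.cast_nonneg _))
        have h3 := hq q hq'
        have h4 : (0 : ℝ) < (q : ℝ) - 1 := by linarith
        rw [div_le_iff₀ h4, add_mul, one_mul, one_div, inv_mul_eq_div]
        have : 1 ≤ ((q : ℝ) - 1) / t := by
          rw [le_div_iff₀ ht]
          linarith
        linarith
    _ = N * (1 + 1 / t) ^ N.primeFactors.card := by
        rw [Finset.prod_mul_distrib, Finset.prod_const, ← h2]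
    _ ≤ N * (1 + 1 / t) ^ k := by
        apply mul_le_mul_of_nonneg_left _ (Nat.cast_nonneg _)
        apply pow_le_pow_right₀ _ hk
        have : 0 < 1 / t := by positivity
        linarith

end Pool.Agent.Helper98.NS
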