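import Pool.Agent.Helper98.NS.Comp

/-!
# No large gap between the small and the large components
-/

set_option autoImplicit false

namespace Pool.Agent.Helper98.NS

open ArithmeticFunction Finset

theorem arith (A B k M : ℕ) (z w t : ℝ) (hAB : A ≠ B) (hk : 1 ≤ k) (hM : 1 ≤ M)
    (ht : 7 * (k : ℝ) * M ≤ t) (hz : (A : ℝ) * z = B * w) (hw1 : 1 ≤ w) (hw2 : w ≤ 1 + 1 / (2 * t))
    (hz1 : 1 - k / t ≤ z) (hz2 : z * (1 - 2 * k / t) ≤ 1) (hB : B ≤ 3 * M) : False := by
  have hk' : (1 : ℝ) ≤ k := by exact_mod_cast hk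
  have hM' : (1 : ℝ) ≤ M := by exact_mod_cast hM
  have hkM : (1 : ℝ) ≤ k * M := by nlinarith
  have ht0 : 0 < t := by nlinarith
  have hB' : (B : ℝ) ≤ 3 * M := by exact_mod_cast hB
  have hB0 : (0 : ℝ) ≤ B := Nat.cast_nonneg B
  have hA0 : (0 : ℝ) ≤ A := Nat.cast_nonneg A
  have hkt : (k : ℝ) ≤ t := by nlinarith
  have h2kt : 2 * (k : ℝ) ≤ t := by nlinarith
  rcases Nat.lt_or_gt_of_ne hAB with h | h
  · -- `A < B`
    have h1 : (A : ℝ) + 1 ≤ B := by exact_mod_cast h
    have h2 : 0 ≤ 1 - 2 * k / t := by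
      rw [sub_nonneg, div_le_one ht0]
      exact h2kt
    have h3 : (B : ℝ) * (1 - 2 * k / t) ≤ A := by
      calc (B : ℝ) * (1 - 2 * k / t) ≤ (B * w) * (1 - 2 * k / t) := by
            apply mul_le_mul_of_nonneg_right _ h2
            nlinarith
        _ = A * (z * (1 - 2 * k / t)) := by rw [← hz]; ring
        _ ≤ A * 1 := mul_le_mul_of_nonneg_left hz2 hA0
        _ = A := mul_one _
    have h4 : 1 ≤ (B : ℝ) * (2 * k / t) := by linarith
    rw [mul_div_assoc', le_div_iff₀ ht0] at h4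
    nlinarith
  · -- `B < A`
    have h1 : (B : ℝ) + 1 ≤ A := by exact_mod_cast h
    have h2 : 0 ≤ 1 - k / t := by
      rw [sub_nonneg, div_le_one ht0]
      exact hkt
    have h3 : ((B : ℝ) + 1) * (1 - k / t) ≤ B * (1 + 1 / (2 * t)) := by
      calc ((B : ℝ) + 1) * (1 - k / t) ≤ A * (1 - k / t) := mul_le_mul_of_nonneg_right h1 h2
        _ ≤ A * z := mul_le_mul_of_nonneg_left hz1 hA0
        _ = B * w := hz
        _ ≤ B * (1 + 1 / (2 * t)) := mul_le_mul_of_nonneg_left hw2 hB0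
    have h4 : t ≤ ((B : ℝ) + 1) * k + B / 2 := by
      have h5 : ((B : ℝ) + 1) * (1 - k / t) * t = (B + 1) * (t - k) := by field_simp
      have h6 : (B : ℝ) * (1 + 1 / (2 * t)) * t = B * t + B / 2 := by field_simp
      have h7 := mul_le_mul_of_nonneg_right h3 ht0.le
      rw [h5, h6] at h7
      linarith
    nlinarith

/-- the small components -/
def CC (n T : ℕ) : Finset ℕ := n.primeFactors.filter (fun p => cc n p ≤ T)

/-- the primes of the large components -/
def DD (n T : ℕ) : Finset ℕ := n.primeFactors.filter (fun p => ¬ cc n p ≤ T)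

/-- small primes with large components -/
def EE (n T : ℕ) : Finset ℕ := (DD n T).filter (fun p => p ≤ T)

/-- large primes -/
def LL (n T : ℕ) : Finset ℕ := (DD n T).filter (fun p => ¬ p ≤ T)

variable {n T : ℕ}

theorem CC_sub : CC n T ⊆ n.primeFactors := filter_subset _ _

theorem DD_sub : DD n T ⊆ n.primeFactors := filter_subset _ _

theorem EE_sub : EE n T ⊆ DD n T := filter_subset _ _

theorem LL_sub : LL n T ⊆ DD n T := filter_subset _ _

theorem CD {M : Type} [CommMonoid M] (f : ℕ → M) :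
    (∏ p ∈ CC n T, f p) * ∏ p ∈ DD n T, f p = ∏ p ∈ n.primeFactors, f p :=
  prod_filter_mul_prod_filter_not _ _ _

theorem EL {M : Type} [CommMonoid M] (f : ℕ → M) :
    (∏ p ∈ EE n T, f p) * ∏ p ∈ LL n T, f p = ∏ p ∈ DD n T, f p :=
  prod_filter_mul_prod_filter_not _ _ _

/-- the lower bound -/
theorem lower {t : ℝ} (ht : 1 ≤ t) (hD : ∀ p ∈ DD n T, t + 1 ≤ (cc n p : ℝ)) :
    (∏ p ∈ DD n T, (cc n p : ℝ)) * ((1 - 1 / t) ^ (EE n T).card *
      ∏ p ∈ EE n T, ((p : ℝ) / (p - 1))) ≤ ∏ p ∈ DD n T, (rr n p : ℝ) := by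
  have ht0 : 0 < t := by linarith
  have h1t : 0 ≤ 1 - 1 / t := by
    rw [sub_nonneg, div_le_one ht0]
    exact ht
  rw [← EL (fun p => (cc n p : ℝ)), ← EL (fun p => (rr n p : ℝ))]
  calc (∏ p ∈ EE n T, (cc n p : ℝ)) * (∏ p ∈ LL n T, (cc n p : ℝ)) *
      ((1 - 1 / t) ^ (EE n T).card * ∏ p ∈ EE n T, ((p : ℝ) / (p - 1)))
      = (∏ p ∈ EE n T, (cc n p : ℝ) * ((1 - 1 / t) * ((p : ℝ) / (p - 1)))) *
        ∏ p ∈ LL n T, (cc n p : ℝ) := by
        rw [Finset.prod_mul_distrib, Finset.prod_mul_distrib, Finset.prod_const]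
        ring
    _ ≤ (∏ p ∈ EE n T, (rr n p : ℝ)) * ∏ p ∈ LL n T, (rr n p : ℝ) := by
        apply mul_le_mul
        · apply Finset.prod_le_prod
          · intro p hp
            have h2 := one_lt_cast (DD_sub (EE_sub hp))
            have h3 : (0 : ℝ) < (p : ℝ) - 1 := by linarith
            positivity
          · intro p hp
            have h2 := hD p (EE_sub hp)
            exact le_rr (DD_sub (EE_sub hp)) ht0 (by linarith)
        · apply Finset.prod_le_prod (fun p _ => Nat.cast_nonneg _)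
          intro p hp
          exact (cc_lt_rr (DD_sub (LL_sub hp))).le
        · exact Finset.prod_nonneg fun p _ => Nat.cast_nonneg _
        · exact Finset.prod_nonneg fun p _ => Nat.cast_nonneg _

/-- the upper bound -/
theorem upper {t : ℝ} (ht : 1 ≤ t) (hL : ∀ p ∈ LL n T, t + 1 ≤ (p : ℝ)) :
    ∏ p ∈ DD n T, (rr n p : ℝ) ≤ (∏ p ∈ DD n T, (cc n p : ℝ)) *
      ((1 + 1 / t) ^ (LL n T).card * ∏ p ∈ EE n T, ((p : ℝ) / (p - 1))) := by
  have ht0 : 0 < t := by linarith
  rw [← EL (fun p => (cc n p : ℝ)), ← EL (fun p => (rr n p : ℝ))]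
  calc (∏ p ∈ EE n T, (rr n p : ℝ)) * ∏ p ∈ LL n T, (rr n p : ℝ)
      ≤ (∏ p ∈ EE n T, (cc n p : ℝ) * ((p : ℝ) / (p - 1))) *
        ∏ p ∈ LL n T, (cc n p : ℝ) * (1 + 1 / t) := by
        apply mul_le_mul
        · apply Finset.prod_le_prod (fun p _ => Nat.cast_nonneg _)
          intro p hp
          exact rr_le (DD_sub (EE_sub hp))
        · apply Finset.prod_le_prod (fun p _ => Nat.cast_nonneg _)
          intro p hp
          refine (rr_le (DD_sub (LL_sub hp))).trans
            (mul_le_mul_of_nonneg_left ?_ (Nat.cast_nonneg _))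
          have h3 := hL p hp
          have h4 : (0 : ℝ) < (p : ℝ) - 1 := by linarith
          rw [div_le_iff₀ h4, add_mul, one_mul, one_div, inv_mul_eq_div]
          have : 1 ≤ ((p : ℝ) - 1) / t := by
            rw [le_div_iff₀ ht0]
            linarith
          linarith
        · exact Finset.prod_nonneg fun p _ => Nat.cast_nonneg _
        · apply Finset.prod_nonneg
          intro p hp
          have h2 := one_lt_cast (DD_sub (EE_sub hp))
          have h3 : (0 : ℝ) < (p : ℝ) - 1 := by linarith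
          positivity
    _ = _ := by
        rw [Finset.prod_mul_distrib, Finset.prod_mul_distrib, Finset.prod_const]
        ring

end Pool.Agent.Helper98.NS
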