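import Pool.Agent.Helper98.NS.Main

/-!
# The explicit bound
-/

set_option autoImplicit false

namespace Pool.Agent.Helper98.NS

open ArithmeticFunction Finset

/-- the items -/
def XX (n m : ℕ) : Multiset ℕ :=
  m ::ₘ (n.primeFactors.val + n.primeFactors.val.map (cc n))

variable {n m T : ℕ}

theorem mem_XX {x : ℕ} : x ∈ XX n m ↔
    x = m ∨ x ∈ n.primeFactors ∨ ∃ p ∈ n.primeFactors, cc n p = x := by
  unfold XX
  rw [Multiset.mem_cons, Multiset.mem_add, Multiset.mem_map]
  rfl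

theorem prod_XX : (XX n m).prod = m * ((∏ p ∈ n.primeFactors, p) * ∏ p ∈ n.primeFactors, cc n p) := by
  unfold XX
  rw [Multiset.prod_cons, Multiset.prod_add, Finset.prod_eq_multiset_prod,
    Finset.prod_eq_multiset_prod, Multiset.map_id']

theorem card_XX : Multiset.card (XX n m) = 2 * n.primeFactors.card + 1 := by
  unfold XX
  rw [Multiset.card_cons, Multiset.card_add, Multiset.card_map, Finset.card_val]
  ring

theorem filt_XX : ((XX n m).filter (fun y => y ≤ T)).prod = (if m ≤ T then m else 1) *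
    ((∏ p ∈ n.primeFactors.filter (fun p => p ≤ T), p) * ∏ p ∈ CC n T, cc n p) := by
  unfold XX
  rw [Multiset.filter_cons, Multiset.filter_add, Multiset.prod_add, Multiset.prod_add,
    Multiset.filter_map, Finset.prod_eq_multiset_prod, Finset.prod_eq_multiset_prod,
    Multiset.map_id']
  congr 1
  split_ifs
  · exact Multiset.prod_singleton _
  · exact Multiset.prod_zero

theorem Q_le : (∏ p ∈ CC n T, cc n p) * (∏ p ∈ EE n T, p) ≤
    (∏ p ∈ n.primeFactors.filter (fun p => p ≤ T), p) * ∏ p ∈ CC n T, cc n p := by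
  rw [mul_comm]
  apply Nat.mul_le_mul_right
  apply Finset.prod_le_prod_of_subset_of_one_le'
  · intro p hp
    exact mem_filter.mpr ⟨DD_sub (EE_sub hp), (mem_filter.mp hp).2⟩
  · intro p hp _
    exact (Nat.prime_of_mem_primeFactors (mem_filter.mp hp).1).one_le

theorem bound {d : ℕ} (hodd : Odd n)
    (hP : ∀ p a : ℕ, p.Prime → 1 ≤ a → p ^ a ∣ n → ¬ p ^ (a + 1) ∣ n →
      (sigma 1 (p ^ a)).Prime)
    (hd : 0 < d) (hdn : d ∣ n) (hN : sigma 1 (sigma 1 n) = 2 * n + d) :
    1 ≤ n.primeFactors.card ∧ (n / d) * ((∏ p ∈ n.primeFactors, p) * n) ≤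
      (7 * n.primeFactors.card) ^ (2 ^ (2 * n.primeFactors.card + 1) - 1) := by
  have hn0 : n ≠ 0 := hodd.pos.ne'
  obtain ⟨m, hm⟩ := hdn
  have hmo : Odd m := by
    rw [hm] at hodd
    exact (Nat.odd_mul.mp hodd).2
  have hdo : Odd d := by
    rw [hm] at hodd
    exact (Nat.odd_mul.mp hodd).1
  have hdiv : n / d = m := by
    rw [hm]
    exact Nat.mul_div_cancel_left m hd
  have hP' : ∀ p ∈ n.primeFactors, (rr n p).Prime := by
    intro p hp
    have hpp := Nat.prime_of_mem_primeFactors hp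
    exact hP p (n.factorization p) hpp
      (hpp.factorization_pos_of_dvd hn0 (Nat.dvd_of_mem_primeFactors hp))
      (Nat.ordProj_dvd n p) (Nat.pow_succ_factorization_not_dvd hn0 hpp)
  have hs : Odd (sigma 1 (sigma 1 n)) := by
    rw [hN]
    exact Even.add_odd (even_two_mul n) hdo
  have heq : m * sigma 1 (sigma 1 n) = (2 * m + 1) * n := by
    rw [hN]
    nth_rewrite 2 [hm]
    nth_rewrite 1 [hm]
    ring
  have hk : 1 ≤ n.primeFactors.card := by
    rw [Nat.one_le_iff_ne_zero]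
    intro h
    rw [Finset.card_eq_zero, Nat.primeFactors_eq_empty] at h
    rcases h with h | h
    · exact hn0 h
    · rw [h] at hN
      have : sigma 1 (sigma 1 1) = 1 := by simp
      omega
  refine ⟨hk, ?_⟩
  have hmain := gap_prod (XX n m) (7 * n.primeFactors.card) (by omega) (by
    intro x hx
    rcases mem_XX.mp hx with h | h | ⟨p, hp, h⟩
    · rw [h]
      exact hmo.pos
    · exact (Nat.prime_of_mem_primeFactors h).one_le
    · rw [← h]
      exact cc_pos hp) (by
    rintro T ⟨x, hx, hTx⟩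
    by_contra hcon
    push Not at hcon
    have hprod := filt_XX (n := n) (m := m) (T := T)
    refine core (n := n) (T := T) (m := m) (M := ((XX n m).filter (fun y => y ≤ T)).prod)
      (K := 7 * n.primeFactors.card) hodd hP' hmo hs heq le_rfl hk ?_ ?_ ?_ ?_ ?_ ?_
    · rw [hprod]
      refine Q_le.trans (Nat.le_mul_of_pos_left _ ?_)
      split_ifs
      · exact hmo.pos
      · exact one_pos
    · intro hmT
      rw [hprod, if_pos hmT]
      exact Nat.mul_le_mul_left _ Q_le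
    · intro p hp hTp
      exact hcon p (mem_XX.mpr (Or.inr (Or.inl hp))) hTp
    · intro p hp hTp
      exact hcon _ (mem_XX.mpr (Or.inr (Or.inr ⟨p, hp, rfl⟩))) hTp
    · intro hTm
      exact hcon m (mem_XX.mpr (Or.inl rfl)) hTm
    · rcases mem_XX.mp hx with h | h | ⟨p, hp, h⟩
      · left
        rwa [h] at hTx
      · right
        exact ⟨x, h, hTx.trans_le (le_cc h)⟩
      · right
        refine ⟨p, hp, ?_⟩
        rwa [h])
  rw [prod_XX, prod_cc hn0, card_XX] at hmain
  rw [hdiv]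
  exact hmain

theorem bound_lt {d : ℕ} (hodd : Odd n)
    (hP : ∀ p a : ℕ, p.Prime → 1 ≤ a → p ^ a ∣ n → ¬ p ^ (a + 1) ∣ n →
      (sigma 1 (p ^ a)).Prime)
    (hd : 0 < d) (hdn : d ∣ n) (hN : sigma 1 (sigma 1 n) = 2 * n + d) :
    n < (7 * n.primeFactors.card) ^ (2 * 4 ^ n.primeFactors.card) := by
  obtain ⟨hk, h⟩ := bound hodd hP hd hdn hN
  have hn0 : 0 < n := hodd.pos
  have h1 : 0 < n / d := Nat.div_pos (Nat.le_of_dvd hn0 hdn) hd
  have h2 : 0 < ∏ p ∈ n.primeFactors, p :=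
    Finset.prod_pos fun p hp => (Nat.prime_of_mem_primeFactors hp).pos
  have h3 : n ≤ (n / d) * ((∏ p ∈ n.primeFactors, p) * n) := by
    rw [← mul_assoc]
    exact Nat.le_mul_of_pos_left _ (Nat.mul_pos h1 h2)
  refine (h3.trans h).trans_lt ?_
  apply Nat.pow_lt_pow_right (by omega)
  have h4 : 2 ^ (2 * n.primeFactors.card + 1) = 2 * 4 ^ n.primeFactors.card := by
    rw [pow_succ, pow_mul]
    norm_num
    ring
  have h5 : 0 < 4 ^ n.primeFactors.card := by positivity
  omega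

theorem finite_le (k : ℕ) : {n : ℕ | Odd n ∧
      (∀ p a : ℕ, p.Prime → 1 ≤ a → p ^ a ∣ n → ¬ p ^ (a + 1) ∣ n → (sigma 1 (p ^ a)).Prime) ∧
      (∃ d : ℕ, 0 < d ∧ d ∣ n ∧ sigma 1 (sigma 1 n) = 2 * n + d) ∧
      n.primeFactors.card ≤ k}.Finite := by
  apply (Set.finite_lt_nat ((7 * k) ^ (2 * 4 ^ k))).subset
  rintro n ⟨hodd, hP, ⟨d, hd, hdn, hN⟩, hk⟩
  have h1 := bound_lt hodd hP hd hdn hN
  obtain ⟨h2, _⟩ := bound hodd hP hd hdn hN
  show n < (7 * k) ^ (2 * 4 ^ k)
  calc n < (7 * n.primeFactors.card) ^ (2 * 4 ^ n.primeFactors.card) := h1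
    _ ≤ (7 * k) ^ (2 * 4 ^ n.primeFactors.card) := Nat.pow_le_pow_left (Nat.mul_le_mul_left _ hk) _
    _ ≤ (7 * k) ^ (2 * 4 ^ k) :=
        Nat.pow_le_pow_right (by omega)
          (Nat.mul_le_mul_left _ (Nat.pow_le_pow_right (by norm_num) hk))

end Pool.Agent.Helper98.NS
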