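import Mathlib

/-!
# A multiset of integers without large gaps has bounded product
-/

set_option autoImplicit false

namespace Pool.Agent.Helper98.NS

theorem gap_aux (X : Multiset ℕ) (K : ℕ) (hK : 1 ≤ K) (h1 : ∀ x ∈ X, 1 ≤ x)
    (H : ∀ T, (∃ x ∈ X, T < x) → ∃ x ∈ X, T < x ∧ x ≤ K * (X.filter (fun y => y ≤ T)).prod) (T : ℕ) :
    (X.filter (fun y => y ≤ T)).prod ≤ K ^ (2 ^ Multiset.card (X.filter (fun y => y ≤ T)) - 1) := by
  induction T with
  | zero =>
    have : X.filter (fun y => y ≤ 0) = 0 := by
      rw [Multiset.filter_eq_nil]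
      intro a ha
      have := h1 a ha
      omega
    rw [this]
    simp
  | succ T ih =>
    have hsplit : X.filter (fun y => y ≤ T + 1) =
        X.filter (fun y => y ≤ T) + X.filter (fun y => y = T + 1) := by
      rw [← Multiset.filter_add_not (fun y => y ≤ T) (X.filter (fun y => y ≤ T + 1)),
        Multiset.filter_filter, Multiset.filter_filter]
      congr 1
      · apply Multiset.filter_congr
        intro x _
        omega
      · apply Multiset.filter_congr
        intro x _
        omega
    rw [hsplit, Multiset.filter_eq', Multiset.prod_add, Multiset.card_add, Multiset.prod_replicate,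
      Multiset.card_replicate]
    set t := Multiset.count (T + 1) X with ht
    set P := (X.filter (fun y => y ≤ T)).prod with hP
    set j := Multiset.card (X.filter (fun y => y ≤ T)) with hj
    rcases Nat.eq_zero_or_pos t with h0 | h0
    · rw [h0, pow_zero, mul_one, add_zero]
      exact ih
    · have hmem : T + 1 ∈ X := Multiset.count_pos.mp h0
      obtain ⟨y, hy, hTy, hyK⟩ := H T ⟨T + 1, hmem, Nat.lt_succ_self T⟩
      have hj1 : 1 ≤ 2 ^ j := Nat.one_le_two_pow
      have h2 : T + 1 ≤ K ^ (2 ^ j) := by
        calc T + 1 ≤ y := hTy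
          _ ≤ K * P := hyK
          _ ≤ K * K ^ (2 ^ j - 1) := Nat.mul_le_mul_left _ ih
          _ = K ^ (2 ^ j) := by rw [← pow_succ', Nat.sub_add_cancel hj1]
      calc P * (T + 1) ^ t ≤ K ^ (2 ^ j - 1) * (K ^ (2 ^ j)) ^ t :=
            Nat.mul_le_mul ih (Nat.pow_le_pow_left h2 t)
        _ = K ^ (2 ^ j - 1 + 2 ^ j * t) := by rw [← pow_mul, ← pow_add]
        _ ≤ K ^ (2 ^ (j + t) - 1) := by
            apply Nat.pow_le_pow_right hK
            have h3 : t + 1 ≤ 2 ^ t := Nat.lt_two_pow_self
            have h4 : 2 ^ j * (t + 1) ≤ 2 ^ j * 2 ^ t := Nat.mul_le_mul_left _ h3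
            rw [pow_add]
            rw [mul_add, mul_one] at h4
            omega

/-- If above every `T` which is not an upper bound there is an element of `X` that is at most `K` times the product of the
elements `≤ T`, then the product of all elements is at most `K ^ (2 ^ |X| - 1)`. -/
theorem gap_prod (X : Multiset ℕ) (K : ℕ) (hK : 1 ≤ K) (h1 : ∀ x ∈ X, 1 ≤ x)
    (H : ∀ T, (∃ x ∈ X, T < x) → ∃ x ∈ X, T < x ∧ x ≤ K * (X.filter (fun y => y ≤ T)).prod) :
    X.prod ≤ K ^ (2 ^ Multiset.card X - 1) := by
  have h := gap_aux X K hK h1 H X.sum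
  have : X.filter (fun y => y ≤ X.sum) = X := by
    rw [Multiset.filter_eq_self]
    intro a ha
    exact Multiset.le_sum_of_mem ha
  rwa [this] at h

end Pool.Agent.Helper98.NS
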