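import Pool.Agent.Helper98.NS.Core

/-!
# Odd near superperfect numbers with prime components: explicit bound in terms of the number of prime factors
-/

set_option autoImplicit false

namespace Pool.Agent.Helper98.NS

open ArithmeticFunction Finset

variable {n T : ℕ}

theorem prime_dvd_aux {P : ℕ} (hPP : P.Prime) (hPE : P ∈ EE n T)
    (hmax : ∀ q ∈ EE n T, q ≤ P) :
    ¬ P ∣ (∏ p ∈ CC n T, cc n p) * ∏ p ∈ EE n T, (p - 1) := by
  intro h
  rcases (hPP.dvd_mul).1 h with h1 | h1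
  · obtain ⟨q, hq, hd⟩ := (hPP.prime.dvd_finsetProd_iff _).1 h1
    have hqp := Nat.prime_of_mem_primeFactors (CC_sub hq)
    have h2 : P ∣ q := hPP.dvd_of_dvd_pow hd
    have h3 : P = q := (Nat.prime_dvd_prime_iff_eq hPP hqp).1 h2
    subst h3
    have h4 := (mem_filter.mp hq).2
    have h5 := (mem_filter.mp (EE_sub hPE)).2
    exact h5 h4
  · obtain ⟨q, hq, hd⟩ := (hPP.prime.dvd_finsetProd_iff _).1 h1
    have hqp := Nat.prime_of_mem_primeFactors (DD_sub (EE_sub hq))
    have h2 := hmax q hq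
    have h3 := hqp.two_le
    have h4 := Nat.le_of_dvd (by omega) hd
    omega

theorem key1 (a b c d : ℝ) (hd : d ≠ 0) : a * (b * (c / d)) * d = b * (a * c) := by
  field_simp

theorem key2 (a b c d : ℝ) (hd : d ≠ 0) : a * (b * (c / d)) * b * d = b * b * (a * c) := by
  field_simp

theorem key3 (a b : ℝ) (ha : a ≠ 0) : (2 * a + 1) * b = a * (2 * b * (1 + 1 / (2 * a))) := by
  field_simp

theorem core {m M K : ℕ} (hn : Odd n) (hP : ∀ p ∈ n.primeFactors, (rr n p).Prime)
    (hmo : Odd m) (hs : Odd (sigma 1 (sigma 1 n)))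
    (heq : m * sigma 1 (sigma 1 n) = (2 * m + 1) * n) (hK : 7 * n.primeFactors.card ≤ K)
    (hk : 1 ≤ n.primeFactors.card)
    (hM1 : (∏ p ∈ CC n T, cc n p) * (∏ p ∈ EE n T, p) ≤ M)
    (hM2 : m ≤ T → m * ((∏ p ∈ CC n T, cc n p) * (∏ p ∈ EE n T, p)) ≤ M)
    (hp : ∀ p ∈ n.primeFactors, T < p → K * M < p)
    (hc : ∀ p ∈ n.primeFactors, T < cc n p → K * M < cc n p) (hm : T < m → K * M < m)
    (hex : T < m ∨ ∃ p ∈ n.primeFactors, T < cc n p) : False := by
  have hn0 : n ≠ 0 := by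
    rintro rfl
    simp at hk
  have hm0 : 0 < m := hmo.pos
  set k := n.primeFactors.card with hkdef
  set n0 := ∏ p ∈ CC n T, cc n p with hn0def
  set n1 := ∏ p ∈ DD n T, cc n p with hn1def
  set Q := ∏ p ∈ EE n T, p with hQdef
  set φ := ∏ p ∈ EE n T, (p - 1) with hφdef
  set A0 := sigma 1 (∏ p ∈ CC n T, rr n p) with hA0def
  set S1 := sigma 1 (∏ p ∈ DD n T, rr n p) with hS1def
  have hn01 : n0 * n1 = n := by
    rw [hn0def, hn1def, CD, prod_cc hn0]
  have hn0pos : 0 < n0 := Finset.prod_pos fun p h => cc_pos (CC_sub h)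
  have hn1pos : 0 < n1 := Finset.prod_pos fun p h => cc_pos (DD_sub h)
  have hE2 : ∀ p ∈ EE n T, 2 ≤ p := fun p h =>
    (Nat.prime_of_mem_primeFactors (DD_sub (EE_sub h))).two_le
  have hQpos : 0 < Q := Finset.prod_pos fun p h => by have := hE2 p h; omega
  have hφpos : 0 < φ := Finset.prod_pos fun p h => by have := hE2 p h; omega
  have hφQ : φ ≤ Q := Finset.prod_le_prod (fun _ _ => Nat.zero_le _) fun p _ => Nat.sub_le p 1
  have hMpos : 1 ≤ M := le_trans (Nat.mul_pos hn0pos hQpos) hM1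
  have hKM7 : 7 * (k * M) ≤ K * M := by
    calc 7 * (k * M) = 7 * k * M := by ring
      _ ≤ K * M := Nat.mul_le_mul_right _ hK
  have hkM : 1 ≤ k * M := Nat.mul_pos hk hMpos
  -- the real number `t`
  obtain ⟨t, htdef⟩ : ∃ t : ℝ, t = ((K * M : ℕ) : ℝ) := ⟨_, rfl⟩
  have ht7 : 7 * (k : ℝ) * M ≤ t := by
    rw [htdef]
    have : ((7 * (k * M) : ℕ) : ℝ) ≤ ((K * M : ℕ) : ℝ) := by exact_mod_cast hKM7
    push_cast at this ⊢
    linarith
  have hk' : (1 : ℝ) ≤ k := by exact_mod_cast hk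
  have hM' : (1 : ℝ) ≤ M := by exact_mod_cast hMpos
  have ht1 : 1 ≤ t := by nlinarith
  have ht0 : 0 < t := by linarith
  have hDc : ∀ p ∈ DD n T, t + 1 ≤ (cc n p : ℝ) := by
    intro p h
    have h1 := (mem_filter.mp h).2
    have h2 := hc p (DD_sub h) (by omega)
    rw [htdef]
    exact_mod_cast h2
  have hLp : ∀ p ∈ LL n T, t + 1 ≤ (p : ℝ) := by
    intro p h
    have h1 := (mem_filter.mp h).2
    have h2 := hp p (DD_sub (LL_sub h)) (by omega)
    rw [htdef]
    exact_mod_cast h2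
  -- coprimality of the two parts of `σ n`
  have hcop : Nat.Coprime (∏ p ∈ CC n T, rr n p) (∏ p ∈ DD n T, rr n p) := by
    refine Nat.Coprime.prod_left fun p hpC => Nat.Coprime.prod_right fun q hqD => ?_
    rw [Nat.coprime_primes (hP p (CC_sub hpC)) (hP q (DD_sub hqD))]
    intro h
    have h1 : cc n p ≤ n0 := Nat.le_of_dvd hn0pos (Finset.dvd_prod_of_mem _ hpC)
    have h2 : n0 ≤ M := le_trans (Nat.le_mul_of_pos_right _ hQpos) hM1
    have h3 : (rr n p : ℝ) ≤ 2 * cc n p := by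
      refine (rr_le (CC_sub hpC)).trans ?_
      have hpp := Nat.prime_of_mem_primeFactors (CC_sub hpC)
      have h4 : (2 : ℝ) ≤ p := by exact_mod_cast hpp.two_le
      have h5 : (0 : ℝ) < (p : ℝ) - 1 := by linarith
      have h6 : (p : ℝ) / (p - 1) ≤ 2 := by
        rw [div_le_iff₀ h5]
        linarith
      have h7 : (0 : ℝ) ≤ cc n p := Nat.cast_nonneg _
      nlinarith
    have h4 := hDc q hqD
    have h5 := cc_lt_rr (DD_sub hqD)
    rw [← h] at h5
    have h6 : (cc n p : ℝ) ≤ M := by exact_mod_cast h1.trans h2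
    nlinarith
  have hσ : sigma 1 n = (∏ p ∈ CC n T, rr n p) * ∏ p ∈ DD n T, rr n p := by
    rw [CD]
    have := sig_prod (n := n) (S := n.primeFactors) (Subset.refl _)
    rwa [prod_cc hn0] at this
  have hσσ : sigma 1 (sigma 1 n) = A0 * S1 := by
    rw [hσ, isMultiplicative_sigma.map_mul_of_coprime hcop]
  have hA0odd : Odd A0 := by
    rw [hσσ] at hs
    exact (Nat.odd_mul.mp hs).1
  have hA0pos : 0 < A0 := hA0odd.pos
  -- the equation
  have heq' : m * (A0 * S1) = (2 * m + 1) * (n0 * n1) := by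
    rw [← hσσ, hn01, heq]
  -- bounds for `S1`
  set N1 := ∏ p ∈ DD n T, rr n p with hN1def
  have hN1ne : N1 ≠ 0 := Finset.prod_ne_zero_iff.2 fun p h => (hP p (DD_sub h)).pos.ne'
  have hN1pos : (0 : ℝ) < N1 := by exact_mod_cast Nat.pos_of_ne_zero hN1ne
  have hDk : (DD n T).card ≤ k := Finset.card_le_card DD_sub
  have hEk : (EE n T).card ≤ k := (Finset.card_le_card EE_sub).trans hDk
  have hLk : (LL n T).card ≤ k := (Finset.card_le_card LL_sub).trans hDk
  have hpf : N1.primeFactors ⊆ (DD n T).image (rr n) := by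
    intro q hq
    have hqp := Nat.prime_of_mem_primeFactors hq
    obtain ⟨p, hpD, hd⟩ := (hqp.prime.dvd_finsetProd_iff _).1 (Nat.dvd_of_mem_primeFactors hq)
    rw [Finset.mem_image]
    exact ⟨p, hpD, ((Nat.prime_dvd_prime_iff_eq hqp (hP p (DD_sub hpD))).1 hd).symm⟩
  have hS1le : (S1 : ℝ) ≤ N1 * (1 + 1 / t) ^ k := by
    refine sigma_le N1 k hN1ne ht0 ?_ ?_
    · exact (Finset.card_le_card hpf).trans (Finset.card_image_le.trans hDk)
    · intro q hq
      obtain ⟨p, hpD, rfl⟩ := Finset.mem_image.1 (hpf hq)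
      have h1 := hDc p hpD
      have h2 := cc_lt_rr (DD_sub hpD)
      linarith
  have hS1ge : (N1 : ℝ) ≤ S1 := by
    have : N1 ≤ S1 := by
      rw [hS1def, sigma_one_apply]
      exact Finset.single_le_sum (f := fun d => d) (fun _ _ => Nat.zero_le _)
        (Nat.mem_divisors_self N1 hN1ne)
    exact_mod_cast this
  have hN1cast : (N1 : ℝ) = ∏ p ∈ DD n T, (rr n p : ℝ) := by rw [hN1def]; push_cast; rfl
  have hn1cast : (n1 : ℝ) = ∏ p ∈ DD n T, (cc n p : ℝ) := by rw [hn1def]; push_cast; rfl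
  have hn1r : (0 : ℝ) < n1 := by exact_mod_cast hn1pos
  have hn0r : (0 : ℝ) < n0 := by exact_mod_cast hn0pos
  have hQr : (0 : ℝ) < Q := by exact_mod_cast hQpos
  have hφr : (0 : ℝ) < φ := by exact_mod_cast hφpos
  have hR : ∏ p ∈ EE n T, ((p : ℝ) / (p - 1)) = Q / φ := by
    rw [Finset.prod_div_distrib, hQdef, hφdef]
    push_cast
    congr 1
    apply Finset.prod_congr rfl
    intro p h
    have := hE2 p h
    rw [Nat.cast_sub (by omega), Nat.cast_one]
  have h1t : 0 ≤ 1 - 1 / t := by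
    rw [sub_nonneg, div_le_one ht0]
    exact ht1
  have h1t' : 0 < 1 / t := by positivity
  have hlow := lower ht1 hDc
  have hupp := upper ht1 hLp
  rw [← hN1cast, ← hn1cast, hR] at hlow hupp
  -- the number `z`
  obtain ⟨z, hzdef⟩ : ∃ z : ℝ, z = S1 * φ / (n1 * Q) := ⟨_, rfl⟩
  have hz : (S1 : ℝ) * φ = z * (n1 * Q) := by
    rw [hzdef]
    field_simp
  have hzlow : (1 - 1 / t) ^ k ≤ z := by
    rw [hzdef, le_div_iff₀ (by positivity)]
    have h1 : (1 - 1 / t) ^ k ≤ (1 - 1 / t) ^ (EE n T).card :=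
      pow_le_pow_of_le_one h1t (by linarith) hEk
    have h2 : (n1 : ℝ) * ((1 - 1 / t) ^ (EE n T).card * (Q / φ)) * φ ≤ S1 * φ :=
      mul_le_mul_of_nonneg_right (hlow.trans hS1ge) hφr.le
    have h3 : (n1 : ℝ) * ((1 - 1 / t) ^ (EE n T).card * (Q / φ)) * φ =
        (1 - 1 / t) ^ (EE n T).card * (n1 * Q) := key1 _ _ _ _ hφr.ne'
    rw [h3] at h2
    exact (mul_le_mul_of_nonneg_right h1 (by positivity)).trans h2
  have hzupp : z ≤ (1 + 1 / t) ^ (2 * k) := by
    rw [hzdef, div_le_iff₀ (by positivity)]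
    have h1 : (1 + 1 / t) ^ (LL n T).card ≤ (1 + 1 / t) ^ k :=
      pow_le_pow_right₀ (by linarith) hLk
    have h2 : (S1 : ℝ) * φ ≤ (n1 * ((1 + 1 / t) ^ k * (Q / φ))) * (1 + 1 / t) ^ k * φ := by
      apply mul_le_mul_of_nonneg_right _ hφr.le
      refine hS1le.trans ?_
      apply mul_le_mul_of_nonneg_right _ (by positivity)
      refine hupp.trans ?_
      apply mul_le_mul_of_nonneg_left _ hn1r.le
      exact mul_le_mul_of_nonneg_right h1 (by positivity)
    refine h2.trans (le_of_eq ?_)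
    rw [two_mul, pow_add]
    exact key2 _ _ _ _ hφr.ne'
  have hz1 : 1 - (k : ℝ) / t ≤ z := by
    refine le_trans ?_ hzlow
    have := one_add_mul_le_pow (a := -(1 / t)) (by linarith) k
    rw [← sub_eq_add_neg] at this
    refine le_trans (le_of_eq ?_) this
    ring
  have hz2 : z * (1 - 2 * k / t) ≤ 1 := by
    have hb : 1 - 2 * (k : ℝ) / t ≤ (1 - 1 / t) ^ (2 * k) := by
      have := one_add_mul_le_pow (a := -(1 / t)) (by linarith) (2 * k)
      rw [← sub_eq_add_neg] at this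
      refine le_trans (le_of_eq ?_) this
      push_cast
      ring
    have hpos : (0 : ℝ) ≤ (1 + 1 / t) ^ (2 * k) := by positivity
    have hnn : 0 ≤ 1 - 2 * (k : ℝ) / t := by
      rw [sub_nonneg, div_le_one ht0]
      nlinarith
    calc z * (1 - 2 * k / t) ≤ (1 + 1 / t) ^ (2 * k) * (1 - 2 * k / t) :=
          mul_le_mul_of_nonneg_right hzupp hnn
      _ ≤ (1 + 1 / t) ^ (2 * k) * (1 - 1 / t) ^ (2 * k) := mul_le_mul_of_nonneg_left hb hpos
      _ = ((1 + 1 / t) * (1 - 1 / t)) ^ (2 * k) := (mul_pow _ _ _).symm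
      _ ≤ 1 := by
          apply pow_le_one₀
          · exact mul_nonneg (by linarith) h1t
          · nlinarith
  -- the equation with `z`
  have hmain : ((m * A0 * Q : ℕ) : ℝ) * z = (((2 * m + 1) * n0 * φ : ℕ) : ℝ) := by
    have h1 : (m : ℝ) * (A0 * S1) = (2 * m + 1) * (n0 * n1) := by exact_mod_cast heq'
    push_cast
    have h2 : ((m : ℝ) * A0 * Q * z) * n1 = ((2 * m + 1) * n0 * φ) * n1 := by
      calc ((m : ℝ) * A0 * Q * z) * n1 = m * A0 * (z * (n1 * Q)) := by ring
        _ = (m * (A0 * S1)) * φ := by rw [← hz]; ring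
        _ = ((2 * m + 1) * n0 * φ) * n1 := by rw [h1]; ring
    exact mul_right_cancel₀ hn1r.ne' h2
  have hEodd : ∀ p ∈ EE n T, Odd p := by
    intro p h
    have h1 := Nat.dvd_of_mem_primeFactors (DD_sub (EE_sub h))
    exact Odd.of_dvd_nat hn h1
  have hQodd : Odd Q := by
    rw [hQdef]
    exact Finset.prod_induction _ _ (fun _ _ => Odd.mul) odd_one hEodd
  have hφev : (EE n T).Nonempty → Even φ := by
    rintro ⟨p, h⟩
    have h1 : p - 1 ∣ φ := Finset.dvd_prod_of_mem (fun p => p - 1) h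
    obtain ⟨j, hj⟩ := hEodd p h
    have h2 : (2 : ℕ) ∣ p - 1 := ⟨j, by omega⟩
    exact even_iff_two_dvd.2 (h2.trans h1)
  have hw : (1 : ℝ) ≤ 1 + 1 / (2 * t) := by
    have h2t : 0 < 1 / (2 * t) := by positivity
    linarith
  by_cases hmT : m ≤ T
  · -- small `m`
    refine arith (m * A0 * Q) ((2 * m + 1) * n0 * φ) k M z 1 t ?_ hk hMpos ht7
      (by rw [mul_one]; exact hmain) le_rfl hw hz1 hz2 ?_
    · intro hAB
      rcases (EE n T).eq_empty_or_nonempty with hE | hE
      · -- `z > 1`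
        have hQ1 : Q = 1 := by rw [hQdef, hE, Finset.prod_empty]
        have hφ1 : φ = 1 := by rw [hφdef, hE, Finset.prod_empty]
        obtain ⟨p, hpn, hTp⟩ : ∃ p ∈ n.primeFactors, T < cc n p := by
          rcases hex with h | h
          · omega
          · exact h
        have hpD : p ∈ DD n T := mem_filter.mpr ⟨hpn, by omega⟩
        have h1 : (n1 : ℝ) < N1 := by
          rw [hN1cast, hn1cast]
          apply Finset.prod_lt_prod
          · intro q hq
            exact_mod_cast cc_pos (DD_sub hq)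
          · intro q hq
            exact (cc_lt_rr (DD_sub hq)).le
          · exact ⟨p, hpD, cc_lt_rr hpn⟩
        have h2 : (1 : ℝ) < z := by
          rw [hzdef, hQ1, hφ1, lt_div_iff₀ (by positivity)]
          push_cast
          linarith
        have h3 : (0 : ℝ) < ((m * A0 * Q : ℕ) : ℝ) := by
          exact_mod_cast Nat.mul_pos (Nat.mul_pos hm0 hA0pos) hQpos
        have h4 : ((m * A0 * Q : ℕ) : ℝ) * z = ((m * A0 * Q : ℕ) : ℝ) := by
          rw [hmain, ← hAB]
        have h5 : z = 1 := by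
          have := mul_left_cancel₀ h3.ne' (h4.trans (mul_one _).symm)
          exact this
        linarith
      · have h1 : Odd (m * A0 * Q) := (hmo.mul hA0odd).mul hQodd
        rw [hAB] at h1
        have h2 : Even ((2 * m + 1) * n0 * φ) := (hφev hE).mul_left _
        exact (Nat.not_even_iff_odd.2 h1) h2
    · calc (2 * m + 1) * n0 * φ ≤ (3 * m) * n0 * Q := by
            apply Nat.mul_le_mul _ hφQ
            exact Nat.mul_le_mul_right _ (by omega)
        _ = 3 * (m * (n0 * Q)) := by ring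
        _ ≤ 3 * M := Nat.mul_le_mul_left _ (hM2 hmT)
  · -- large `m`
    have hmM := hm (by omega)
    have hmr : t + 1 ≤ (m : ℝ) := by
      rw [htdef]
      exact_mod_cast hmM
    have hm0r : (0 : ℝ) < m := by linarith
    refine arith (A0 * Q) (2 * n0 * φ) k M z (1 + 1 / (2 * m)) t ?_ hk hMpos ht7 ?_ ?_ ?_ hz1 hz2 ?_
    · intro hAB
      rcases (EE n T).eq_empty_or_nonempty with hE | hE
      · have hQ1 : Q = 1 := by rw [hQdef, hE, Finset.prod_empty]
        have h1 : Odd (A0 * Q) := hA0odd.mul hQodd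
        rw [hAB, mul_assoc] at h1
        exact (Nat.not_even_iff_odd.2 h1) (even_two_mul _)
      · obtain ⟨P, hPE, hmax⟩ := Finset.exists_max_image (EE n T) id hE
        have hPP := Nat.prime_of_mem_primeFactors (DD_sub (EE_sub hPE))
        have h1 : P ∣ A0 * Q := (Finset.dvd_prod_of_mem (fun p => p) hPE).mul_left _
        rw [hAB, mul_assoc] at h1
        rcases (hPP.dvd_mul).1 h1 with h2 | h2
        · have h3 : P = 2 := (Nat.prime_dvd_prime_iff_eq hPP Nat.prime_two).1 h2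
          have h4 := hEodd P hPE
          rw [h3] at h4
          exact absurd h4 (by decide)
        · exact prime_dvd_aux hPP hPE hmax h2
    · have h1 : ((m * A0 * Q : ℕ) : ℝ) * z = m * (((A0 * Q : ℕ) : ℝ) * z) := by push_cast; ring
      have h2 : (((2 * m + 1) * n0 * φ : ℕ) : ℝ) =
          m * (((2 * n0 * φ : ℕ) : ℝ) * (1 + 1 / (2 * m))) := by
        push_cast
        field_simp
      rw [h1, h2] at hmain
      exact mul_left_cancel₀ hm0r.ne' hmain
    · have : 0 < 1 / (2 * (m : ℝ)) := by positivity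
      linarith
    · have : 1 / (2 * (m : ℝ)) ≤ 1 / (2 * t) := one_div_le_one_div_of_le (by positivity) (by linarith)
      linarith
    · calc 2 * n0 * φ ≤ 2 * n0 * Q := Nat.mul_le_mul_left _ hφQ
        _ = 2 * (n0 * Q) := by ring
        _ ≤ 3 * M := by omega

end Pool.Agent.Helper98.NS
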